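import Pool.Agent.Results.MP_175f55_nt.EveryDigitInMostMultiples
import Pool.Agent.V11326.WW
import Pool.Agent.V11312.PW.Classes

/-!
# Every word of digits in the decimal expansions of ALL multiples `m √2`, `m` near almost every `q`-adic point

Let `k ≥ 1` and `A > 0`. There are `0 < c ≤ 1 / 2` and `C` such that the following holds. Let `q_1, …, q_r` be primes, `σ > 0` and
let `x_0, x_1, ...` be any real numbers. For all points `α` of the product of the rings `ℤ_(q_l)` outside a set of Hausdorff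
dimension at most `(1 - c) / σ` (less than the dimension `r` of the space if `r σ > 1 - c`), every `i`, all large `T` and ALL
natural numbers `m ≤ T` with `|m - α_l| ≤ T ^ (-σ)` in `ℤ_(q_l)` for all `l` (residue classes; for `r σ < 1` there are about
`T ^ (1 - r σ)` such `m`), every word of `k` decimal digits (for `k = 1`: each of the ten digits) stands infinitely often in the
decimal expansion of `x_i + m √2`, and for infinitely many `N` every such word stands at least `A log m log (N / (C log m))`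
times at the first `N` places.
-/

set_option autoImplicit false

open Finset Filter

namespace Pool.Agent.Results.MP_175f55_nt.MultiplesInResidueClasses

open Pool.Agent.Results.MP_175f55_nt.EveryDigitInMostMultiples
open Pool.Agent.V11312.PW

/-- Every word of `k` digits stands infinitely often in the decimal expansion of `x + m √2`, and for infinitely many `N`
every such word stands at least `A log m log (N / (C log m))` times at the first `N` places. -/
def Good (k : ℕ) (A C x : ℝ) (m : ℕ) : Prop :=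
  (∀ w : Fin k → Fin 10, {i : ℕ | Stands k w (x + m * Real.sqrt 2) i}.Infinite) ∧
    ∃ᶠ N : ℕ in atTop, ∀ w : Fin k → Fin 10,
      A * Real.log m * Real.log (N / (C * Real.log m)) ≤ (count k w (x + m * Real.sqrt 2) N : ℝ)

/-- For all large `T` all natural numbers `m ≤ T` near `α` have `Good k A C x m`. -/
def GoodNear (k : ℕ) (A C x : ℝ) {r : ℕ} (q : Fin r → ℕ) [∀ l, Fact (q l).Prime] (σ : ℝ) (α : ∀ l, ℤ_[q l]) : Prop :=
  ∃ T₀ : ℝ, ∀ T ≥ T₀, ∀ m : ℕ, Near q σ T α m → Good k A C x m

/-- **Theorem.** (1) Let `k ≥ 1` and `A > 0`. There are `0 < c ≤ 1 / 2` and `C > 0` such that for all primes `q_1, …, q_r`,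
all `σ > 0` and all real numbers `x_0, x_1, ...` there is a set `E` of points of the product of the `ℤ_(q_l)` of Hausdorff
dimension at most `(1 - c) / σ` such that for all `α ∉ E`, every `i`, all large `T` and ALL natural numbers `m ≤ T` with
`|m - α_l| ≤ T ^ (-σ)` for all `l`: every word of `k` decimal digits stands infinitely often in the decimal expansion of
`x_i + m √2`, and for infinitely many `N` every such word stands at least `A log m log (N / (C log m))` times at the first
`N` places.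
(2) For `r ≥ 1` and all `x_0, x_1, ...` there are sets `E_(k,a)` (`k`, `a` natural numbers) of dimension less than `r` such that for
all `α` outside of all of them, all `k ≥ 1` and all `a` the conclusion of (1) holds for all `i` with `A = a + 1`, some `C > 0`
and some `σ` with `r σ < 1`. -/
theorem result :
    (∀ (k : ℕ) (A : ℝ), 1 ≤ k → 0 < A → ∃ c C : ℝ, 0 < c ∧ c ≤ 1 / 2 ∧ 0 < C ∧
      ∀ (r : ℕ) (q : Fin r → ℕ) [∀ l, Fact (q l).Prime] (σ : ℝ), 0 < σ → ∀ x : ℕ → ℝ,
      ∃ E : Set (∀ l, ℤ_[q l]), dimH E ≤ ENNReal.ofReal ((1 - c) / σ) ∧ ∀ α ∉ E, ∀ i : ℕ,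
        GoodNear k A C (x i) q σ α) ∧
    (∀ (r : ℕ) (q : Fin r → ℕ) [∀ l, Fact (q l).Prime], 1 ≤ r → ∀ x : ℕ → ℝ,
      ∃ E : ℕ → ℕ → Set (∀ l, ℤ_[q l]), (∀ k a, dimH (E k a) < r) ∧ ∀ α : (∀ l, ℤ_[q l]), (∀ k a, α ∉ E k a) →
        ∀ k a : ℕ, 1 ≤ k → ∃ C σ : ℝ, 0 < C ∧ 0 < σ ∧ r * σ < 1 ∧ ∀ i : ℕ,
          GoodNear k ((a : ℝ) + 1) C (x i) q σ α) := by
  classical
  have main : ∀ (k : ℕ) (A : ℝ), 1 ≤ k → 0 < A → ∃ c C : ℝ, 0 < c ∧ c ≤ 1 / 2 ∧ 0 < C ∧
      ∀ (r : ℕ) (q : Fin r → ℕ) [∀ l, Fact (q l).Prime] (σ : ℝ), 0 < σ → ∀ x : ℕ → ℝ,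
      ∃ E : Set (∀ l, ℤ_[q l]), dimH E ≤ ENNReal.ofReal ((1 - c) / σ) ∧ ∀ α ∉ E, ∀ i : ℕ,
        GoodNear k A C (x i) q σ α := by
    intro k A hk hA
    obtain ⟨c, C, hc, hC, h⟩ := Pool.Agent.Results.MP_175f55_nt.EveryDigitInMostMultiples.result k hk A hA
    refine ⟨min c (1 / 2), 3 * C, lt_min hc (by norm_num), min_le_right _ _, by linarith, fun r q _ σ hσ x => ?_⟩
    obtain ⟨E, hE1, hE2⟩ := nat_classes (ι := ℕ)
      (fun i => {m : ℕ | ¬ Good k A (3 * C) (x i) m})
      (s := 1 - min c (1 / 2)) (by linarith [min_le_right c (1 / 2)])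
      (fun i => ⟨_, Pool.Agent.V11326.WW.fam_count (C := 2 * C) hc (by linarith) 4
        (fun m : ℕ => Good k A (3 * C) (x i) m)
        (fun N m : ℕ => (∀ w : Fin k → Fin 10, {j : ℕ | Stands k w (x i + m * Real.sqrt 2) j}.Infinite) ∧
          ∃ᶠ n : ℕ in atTop, ∀ w : Fin k → Fin 10,
            A * Real.log ((N + 1 : ℕ) : ℝ) * Real.log (n / (C * Real.log ((N + 1 : ℕ) : ℝ))) ≤
              (count k w (x i + m * Real.sqrt 2) n : ℝ))
        (by
          rintro N m hN hm1 hm2 ⟨hQ1, hQ2⟩
          refine ⟨hQ1, ?_⟩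
          have hN1 : (4 : ℝ) ≤ N := hN
          have hmN : (m : ℝ) ≤ N := by exact_mod_cast hm2
          have h2 : (2 : ℝ) ≤ (N : ℝ) ^ (1 / 2 : ℝ) := by
            have h4 : (2 : ℝ) = √4 := by
              rw [show (4 : ℝ) = 2 ^ 2 by norm_num, Real.sqrt_sq (by norm_num)]
            calc (2 : ℝ) = √4 := h4
              _ ≤ √(N : ℝ) := Real.sqrt_le_sqrt hN1
              _ = (N : ℝ) ^ (1 / 2 : ℝ) := Real.sqrt_eq_rpow _
          have hm3 : (2 : ℝ) ≤ m := h2.trans hm1
          have hlm : 0 < Real.log m := Real.log_pos (by linarith)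
          have hlN1 : Real.log m ≤ Real.log ((N + 1 : ℕ) : ℝ) := by
            apply Real.log_le_log (by linarith)
            push_cast
            linarith
          have hlN2 : Real.log ((N + 1 : ℕ) : ℝ) ≤ 3 * Real.log m := by
            have h6 : (N : ℝ) ≤ (m : ℝ) ^ 2 := by
              calc (N : ℝ) = ((N : ℝ) ^ (1 / 2 : ℝ)) ^ 2 := by
                    rw [← Real.rpow_natCast, ← Real.rpow_mul (by linarith)]
                    norm_num
                _ ≤ (m : ℝ) ^ 2 := pow_le_pow_left₀ (by positivity) hm1 2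
            have h7 : ((N + 1 : ℕ) : ℝ) ≤ (m : ℝ) ^ 3 := by
              push_cast
              nlinarith [mul_le_mul_of_nonneg_right hm3 (show (0 : ℝ) ≤ (m : ℝ) ^ 2 by positivity)]
            calc Real.log ((N + 1 : ℕ) : ℝ) ≤ Real.log ((m : ℝ) ^ 3) :=
                  Real.log_le_log (by positivity) h7
              _ = 3 * Real.log m := by rw [Real.log_pow]; norm_num
          have hev : ∀ᶠ n : ℕ in atTop, 3 * C * Real.log m ≤ n := by
            filter_upwards [eventually_ge_atTop ⌈3 * C * Real.log m⌉₊] with n hn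
            exact Nat.ceil_le.1 hn
          refine (hQ2.and_eventually hev).mono ?_
          rintro n ⟨h1, h2⟩ w
          refine le_trans ?_ (h1 w)
          have hd1 : 0 < 3 * C * Real.log m := by positivity
          have hd2 : 0 < C * Real.log ((N + 1 : ℕ) : ℝ) := mul_pos hC (hlm.trans_le hlN1)
          have hq1 : 1 ≤ (n : ℝ) / (3 * C * Real.log m) := by rwa [one_le_div hd1]
          have hq2 : (n : ℝ) / (3 * C * Real.log m) ≤ n / (C * Real.log ((N + 1 : ℕ) : ℝ)) := by
            apply div_le_div_of_nonneg_left (Nat.cast_nonneg _) hd2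
            nlinarith
          have hl1 : 0 ≤ Real.log ((n : ℝ) / (3 * C * Real.log m)) := Real.log_nonneg hq1
          have hl2 : Real.log ((n : ℝ) / (3 * C * Real.log m)) ≤ Real.log (n / (C * Real.log ((N + 1 : ℕ) : ℝ))) :=
            Real.log_le_log (by linarith) hq2
          exact mul_le_mul (mul_le_mul_of_nonneg_left hlN1 hA.le) hl2 hl1
            (mul_nonneg hA.le (hlm.trans_le hlN1).le))
        (fun N hN => by
          have h1 := h (x i) (N + 1) (by omega)
          have hfin : {m : ℕ | m < N + 1 ∧ ¬ ((∀ w : Fin k → Fin 10,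
              {j : ℕ | Stands k w (x i + m * Real.sqrt 2) j}.Infinite) ∧
              ∃ᶠ n : ℕ in atTop, ∀ w : Fin k → Fin 10,
                A * Real.log ((N + 1 : ℕ) : ℝ) * Real.log (n / (C * Real.log ((N + 1 : ℕ) : ℝ))) ≤
                  (count k w (x i + m * Real.sqrt 2) n : ℝ))}.Finite :=
            (Set.finite_lt_nat (N + 1)).subset fun m hm => hm.1
          refine ⟨hfin.toFinset, ?_, fun m hm hmE => ?_⟩
          · rw [← Set.ncard_eq_toFinset_card _ hfin]
            refine h1.trans ?_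
            have hN1 : (1 : ℝ) ≤ N := by exact_mod_cast hN
            have h2 : ((N + 1 : ℕ) : ℝ) ^ (1 - c) ≤ 2 * (N : ℝ) ^ (1 - c) := by
              rcases le_total 0 (1 - c) with h3 | h3
              · calc ((N + 1 : ℕ) : ℝ) ^ (1 - c) ≤ (2 * (N : ℝ)) ^ (1 - c) := by
                      apply Real.rpow_le_rpow (by positivity) _ h3
                      push_cast
                      linarith
                  _ = 2 ^ (1 - c) * (N : ℝ) ^ (1 - c) := Real.mul_rpow (by norm_num) (by linarith)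
                  _ ≤ 2 * (N : ℝ) ^ (1 - c) := by
                      apply mul_le_mul_of_nonneg_right _ (by positivity)
                      calc (2 : ℝ) ^ (1 - c) ≤ 2 ^ (1 : ℝ) :=
                            Real.rpow_le_rpow_of_exponent_le (by norm_num) (by linarith)
                        _ = 2 := Real.rpow_one 2
              · have h4 : ((N + 1 : ℕ) : ℝ) ^ (1 - c) ≤ (N : ℝ) ^ (1 - c) := by
                  apply Real.rpow_le_rpow_of_nonpos (by linarith) _ h3
                  push_cast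
                  linarith
                have h5 : 0 ≤ (N : ℝ) ^ (1 - c) := by positivity
                linarith
            calc C * ((N + 1 : ℕ) : ℝ) ^ (1 - c) ≤ C * (2 * (N : ℝ) ^ (1 - c)) := mul_le_mul_of_nonneg_left h2 hC.le
              _ = 2 * C * (N : ℝ) ^ (1 - c) := by ring
          · rw [Set.Finite.mem_toFinset] at hmE
            by_contra hcon
            exact hmE ⟨Nat.lt_succ_of_le hm, hcon⟩)⟩)
      q hσ
    refine ⟨E, hE1, fun α hα i => ?_⟩
    obtain ⟨T₀, hT⟩ := hE2 α hα i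
    exact ⟨T₀, fun T hTT m hm => not_not.1 (hT T hTT m hm)⟩
  refine ⟨main, fun r q _ hr x => ?_⟩
  obtain ⟨E, hE1, hE2⟩ := small hr q (J := {k : ℕ // 1 ≤ k} × ℕ)
    (fun j σ α => ∃ C : ℝ, 0 < C ∧ ∀ i : ℕ, GoodNear j.1.1 ((j.2 : ℝ) + 1) C (x i) q σ α)
    (fun j => by
      obtain ⟨c, C, hc, hc2, hC, h⟩ := main j.1.1 ((j.2 : ℝ) + 1) j.1.2 (by positivity)
      refine ⟨c, hc, hc2, fun σ hσ => ?_⟩
      obtain ⟨E, h1, h2⟩ := h r q σ hσ x
      exact ⟨E, h1, fun α hα => ⟨C, hC, h2 α hα⟩⟩)
  refine ⟨fun k a => if hk : 1 ≤ k then E (⟨k, hk⟩, a) else ∅, fun k a => ?_, fun α hα k a hk => ?_⟩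
  · dsimp only
    split_ifs with hk
    · exact hE1 _
    · rw [dimH_empty]
      exact_mod_cast hr
  · obtain ⟨σ, h1, h2, C, h3, h4⟩ := hE2 α (fun j hj => by
      have h5 := hα j.1.1 j.2
      simp only [dif_pos j.1.2] at h5
      exact h5 hj) (⟨k, hk⟩, a)
    exact ⟨C, σ, h3, h1, h2, h4⟩

end Pool.Agent.Results.MP_175f55_nt.MultiplesInResidueClasses
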