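import Pool.Agent.Results.MP_175f55_nt.AllMultiplesInWindows
import Pool.Agent.V11265.NN

/-!
# Every word of digits in the decimal expansions of ALL multiples `m √2`, `m` near the powers of almost every real number

Let `k ≥ 1` and `A > 0`. There are `0 < c ≤ 1 / 2` and `C` such that the following holds. Let `ν n / log n → ∞`, for example
`ν n = n` or `ν n = n !`, let `U` be a countable set of real numbers, `θ < 1`, and let `x_0, x_1, ...` be any real numbers.
For all `z > 1` outside a set of Hausdorff dimension at most `(1 - c) / (1 - θ)`, every `b > 0` in `U`, every `i` and ALL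
large integers `m` with `|m - b z ^ (ν n)| ≤ z ^ (θ ν n)` for some `n` every word of `k` decimal digits (for `k = 1`: each of
the ten digits) stands infinitely often in the decimal expansion of `x_i + m √2`, and for infinitely many `N` every such
word stands at least `A log m log (N / (C log m))` times at the first `N` places.
-/

set_option autoImplicit false

open Finset Filter

namespace Pool.Agent.Results.MP_175f55_nt.MultiplesNearPowers

open Pool.Agent.V11001.KM
open Pool.Agent.Results.MP_175f55_nt.EveryDigitInMostMultiples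
open Pool.Agent.Results.MP_175f55_nt.AllMultiplesInWindows (Good)

/-- **Theorem.** Let `k ≥ 1` and `A > 0`. There are `0 < c ≤ 1 / 2` and `C > 0` such that for every `ν` with
`ν n / log n → ∞`, every countable set `U` of real numbers, all `θ < 1` and all real numbers `x_0, x_1, ...` there is a set
`E` of Hausdorff dimension at most `(1 - c) / (1 - θ)` such that for all `z > 1` outside `E`, every positive `b` in `U`,
every `i` and ALL large integers `m` with `|m - b z ^ (ν n)| ≤ z ^ (θ ν n)` for some `n`: every word of `k` decimal digits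
stands infinitely often in the decimal expansion of `x_i + m √2`, and for infinitely many `N` every such word stands at
least `A log m log (N / (C log m))` times at the first `N` places. -/
theorem result :
    ∀ (k : ℕ) (A : ℝ), 1 ≤ k → 0 < A → ∃ c C : ℝ, 0 < c ∧ c ≤ 1 / 2 ∧ 0 < C ∧
      ∀ ν : ℕ → ℝ, Fast ν → ∀ U : Set ℝ, U.Countable → ∀ θ : ℝ, θ < 1 → ∀ x : ℕ → ℝ,
      ∃ E : Set ℝ, dimH E ≤ ENNReal.ofReal ((1 - c) / (1 - θ)) ∧ ∀ z : ℝ, 1 < z → z ∉ E → ∀ b ∈ U, 0 < b → ∀ i : ℕ,
        ∃ m₀ : ℝ, ∀ m : ℕ, m₀ ≤ m → Near ν θ b z m → Good k A C (x i) m := by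
  classical
  intro k A hk hA
  obtain ⟨c, C, hc, hC, h⟩ := Pool.Agent.Results.MP_175f55_nt.EveryDigitInMostMultiples.result k hk A hA
  refine ⟨min c (1 / 2), 3 * C, lt_min hc (by norm_num), min_le_right _ _, by linarith, fun ν hν U hU θ hθ1 x => ?_⟩
  obtain ⟨E, hE1, hE2⟩ := Pool.Agent.V11265.NN.near_nat (ι := ℕ)
    (fun i => {m : ℕ | ¬ Good k A (3 * C) (x i) m})
    (s := 1 - min c (1 / 2)) (by linarith [min_le_right c (1 / 2)])
    (fun i => ⟨_, Pool.Agent.V11326.WW.fam_count (C := 2 * C) hc (by linarith) 4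
      (fun m : ℕ => Good k A (3 * C) (x i) m)
      (fun N m : ℕ => (∀ w : Fin k → Fin 10, {j : ℕ | Stands k w (x i + m * Real.sqrt 2) j}.Infinite) ∧
        ∃ᶠ n : ℕ in atTop, ∀ w : Fin k → Fin 10,
          A * Real.log ((N + 1 : ℕ) : ℝ) * Real.log (n / (C * Real.log ((N + 1 : ℕ) : ℝ))) ≤
            (count k w (x i + m * Real.sqrt 2) n : ℝ))
      (by
        rintro N m hN hm1 hm2 ⟨hQ1, hQ2⟩
        refine ⟨hQ1, ?_⟩
        have hN1 : (4 : ℝ) ≤ N := hN
        have hmN : (m : ℝ) ≤ N := by exact_mod_cast hm2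
        have h2 : (2 : ℝ) ≤ (N : ℝ) ^ (1 / 2 : ℝ) := by
          have h4 : (2 : ℝ) = √4 := by
            rw [show (4 : ℝ) = 2 ^ 2 by norm_num, Real.sqrt_sq (by norm_num)]
          calc (2 : ℝ) = √4 := h4
            _ ≤ √(N : ℝ) := Real.sqrt_le_sqrt hN1
            _ = (N : ℝ) ^ (1 / 2 : ℝ) := Real.sqrt_eq_rpow _
        have hm3 : (2 : ℝ) ≤ m := h2.trans hm1
        have hlm : 0 < Real.log m := Real.log_pos (by linarith)
        have hlN1 : Real.log m ≤ Real.log ((N + 1 : ℕ) : ℝ) := by
          apply Real.log_le_log (by linarith)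
          push_cast
          linarith
        have hlN2 : Real.log ((N + 1 : ℕ) : ℝ) ≤ 3 * Real.log m := by
          have h6 : (N : ℝ) ≤ (m : ℝ) ^ 2 := by
            calc (N : ℝ) = ((N : ℝ) ^ (1 / 2 : ℝ)) ^ 2 := by
                  rw [← Real.rpow_natCast, ← Real.rpow_mul (by linarith)]
                  norm_num
              _ ≤ (m : ℝ) ^ 2 := pow_le_pow_left₀ (by positivity) hm1 2
          have h7 : ((N + 1 : ℕ) : ℝ) ≤ (m : ℝ) ^ 3 := by
            push_cast
            nlinarith [mul_le_mul_of_nonneg_right hm3 (show (0 : ℝ) ≤ (m : ℝ) ^ 2 by positivity)]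
          calc Real.log ((N + 1 : ℕ) : ℝ) ≤ Real.log ((m : ℝ) ^ 3) :=
                Real.log_le_log (by positivity) h7
            _ = 3 * Real.log m := by rw [Real.log_pow]; norm_num
        have hev : ∀ᶠ n : ℕ in atTop, 3 * C * Real.log m ≤ n := by
          filter_upwards [eventually_ge_atTop ⌈3 * C * Real.log m⌉₊] with n hn
          exact Nat.ceil_le.1 hn
        refine (hQ2.and_eventually hev).mono ?_
        rintro n ⟨h1, h2⟩ w
        refine le_trans ?_ (h1 w)
        have hd1 : 0 < 3 * C * Real.log m := by positivity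
        have hd2 : 0 < C * Real.log ((N + 1 : ℕ) : ℝ) := mul_pos hC (hlm.trans_le hlN1)
        have hq1 : 1 ≤ (n : ℝ) / (3 * C * Real.log m) := by rwa [one_le_div hd1]
        have hq2 : (n : ℝ) / (3 * C * Real.log m) ≤ n / (C * Real.log ((N + 1 : ℕ) : ℝ)) := by
          apply div_le_div_of_nonneg_left (Nat.cast_nonneg _) hd2
          nlinarith
        have hl1 : 0 ≤ Real.log ((n : ℝ) / (3 * C * Real.log m)) := Real.log_nonneg hq1
        have hl2 : Real.log ((n : ℝ) / (3 * C * Real.log m)) ≤ Real.log (n / (C * Real.log ((N + 1 : ℕ) : ℝ))) :=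
          Real.log_le_log (by linarith) hq2
        exact mul_le_mul (mul_le_mul_of_nonneg_left hlN1 hA.le) hl2 hl1
          (mul_nonneg hA.le (hlm.trans_le hlN1).le))
      (fun N hN => by
        have h1 := h (x i) (N + 1) (by omega)
        have hfin : {m : ℕ | m < N + 1 ∧ ¬ ((∀ w : Fin k → Fin 10,
            {j : ℕ | Stands k w (x i + m * Real.sqrt 2) j}.Infinite) ∧
            ∃ᶠ n : ℕ in atTop, ∀ w : Fin k → Fin 10,
              A * Real.log ((N + 1 : ℕ) : ℝ) * Real.log (n / (C * Real.log ((N + 1 : ℕ) : ℝ))) ≤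
                (count k w (x i + m * Real.sqrt 2) n : ℝ))}.Finite :=
          (Set.finite_lt_nat (N + 1)).subset fun m hm => hm.1
        refine ⟨hfin.toFinset, ?_, fun m hm hmE => ?_⟩
        · rw [← Set.ncard_eq_toFinset_card _ hfin]
          refine h1.trans ?_
          have hN1 : (1 : ℝ) ≤ N := by exact_mod_cast hN
          have h2 : ((N + 1 : ℕ) : ℝ) ^ (1 - c) ≤ 2 * (N : ℝ) ^ (1 - c) := by
            rcases le_total 0 (1 - c) with h3 | h3
            · calc ((N + 1 : ℕ) : ℝ) ^ (1 - c) ≤ (2 * (N : ℝ)) ^ (1 - c) := by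
                    apply Real.rpow_le_rpow (by positivity) _ h3
                    push_cast
                    linarith
                _ = 2 ^ (1 - c) * (N : ℝ) ^ (1 - c) := Real.mul_rpow (by norm_num) (by linarith)
                _ ≤ 2 * (N : ℝ) ^ (1 - c) := by
                    apply mul_le_mul_of_nonneg_right _ (by positivity)
                    calc (2 : ℝ) ^ (1 - c) ≤ 2 ^ (1 : ℝ) :=
                          Real.rpow_le_rpow_of_exponent_le (by norm_num) (by linarith)
                      _ = 2 := Real.rpow_one 2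
            · have h4 : ((N + 1 : ℕ) : ℝ) ^ (1 - c) ≤ (N : ℝ) ^ (1 - c) := by
                apply Real.rpow_le_rpow_of_nonpos (by linarith) _ h3
                push_cast
                linarith
              have h5 : 0 ≤ (N : ℝ) ^ (1 - c) := by positivity
              linarith
          calc C * ((N + 1 : ℕ) : ℝ) ^ (1 - c) ≤ C * (2 * (N : ℝ) ^ (1 - c)) := mul_le_mul_of_nonneg_left h2 hC.le
            _ = 2 * C * (N : ℝ) ^ (1 - c) := by ring
        · rw [Set.Finite.mem_toFinset] at hmE
          by_contra hcon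
          exact hmE ⟨Nat.lt_succ_of_le hm, hcon⟩)⟩)
    hν hθ1 U hU
  refine ⟨E, hE1, fun z hz hzE b hb hb0 i => ?_⟩
  obtain ⟨m₀, hm⟩ := hE2 z hz hzE b hb hb0 i
  exact ⟨m₀, fun m hm1 hw => not_not.1 (hm m hm1 hw)⟩

end Pool.Agent.Results.MP_175f55_nt.MultiplesNearPowers
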