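import Pool.Agent.V1121.PG.Padic

set_option autoImplicit false
set_option maxHeartbeats 4000000

/-! # MP_175f55_nt: words of digits in `x + m √2` for `m` in a set of polynomial growth

The starting result `EveryDigitInMostMultiples` says that for all but `C M ^ (1 - c)` of the integers `m < M`
every word of `k` decimal digits stands infinitely often in the decimal expansion of `x + m √2`. Here the interval
`m < M` is replaced by an arbitrary finite set `M` of integers one of whose iterated sumsets is small,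
`|n M| ≤ n ^ D |M|`, the base and the length of the words are arbitrary and the dependence on them is
explicit. More generally the multiples are replaced by the elements of a finite set of real numbers with a small
iterated sumset, no two of which differ by a rational number.
-/

open scoped Pointwise

namespace Pool.Agent.Results.MP_175f55_nt.PolynomialGrowth

/-- the `n`-fold sumset `A + ... + A` -/
def fold {G : Type} [AddCommGroup G] [DecidableEq G] (n : ℕ) (A : Finset G) : Finset G :=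
  (Fintype.piFinset fun _ : Fin n => A).image fun f => ∑ i, f i

/-- the `j`-th digit of `y` after the point in base `g` -/
noncomputable def digit (g : ℕ) (y : ℝ) (j : ℕ) : ℤ := ⌊y * (g : ℝ) ^ j⌋ % (g : ℤ)

/-- the word `w` of `K` digits stands in the expansion of `y` in base `g` right after the `i`-th digit -/
def Stands (g K : ℕ) (w : Fin K → Fin g) (y : ℝ) (i : ℕ) : Prop :=
  ∀ s : Fin K, digit g y (i + s + 1) = ((w s : ℕ) : ℤ)

/-- every word of `K` digits stands infinitely often in the expansion of `y` in base `g` -/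
def AllWords (g K : ℕ) (y : ℝ) : Prop :=
  ∀ w : Fin K → Fin g, {i : ℕ | Stands g K w y i}.Infinite

/-- no two different elements of `A` differ by a rational number -/
def Free (A : Finset ℝ) : Prop := ∀ x ∈ A, ∀ y ∈ A, x ≠ y → Irrational (x - y)

open Pool.Agent.TH869.PAL Pool.Agent.Y940.PA Pool.Agent.V1121.PG

lemma floor_div (z : ℝ) (b : ℕ) (hb : 0 < b) : ⌊z / b⌋ = ⌊z⌋ / (b : ℤ) := by
  have hbR : (0:ℝ) < b := by exact_mod_cast hb
  have hbZ : (0:ℤ) < b := by exact_mod_cast hb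
  rw [Int.floor_eq_iff]
  have h1 := Int.floor_le z
  have h2 := Int.lt_floor_add_one z
  have h3 := Int.emod_nonneg ⌊z⌋ hbZ.ne'
  have h4 := Int.emod_lt_of_pos ⌊z⌋ hbZ
  have h5 := Int.mul_ediv_add_emod ⌊z⌋ (b:ℤ)
  have h5' : (b:ℝ) * ((⌊z⌋ / (b:ℤ) : ℤ) : ℝ) + ((⌊z⌋ % (b:ℤ) : ℤ) : ℝ) = (⌊z⌋ : ℝ) := by exact_mod_cast h5
  have h3' : (0:ℝ) ≤ ((⌊z⌋ % (b:ℤ) : ℤ) : ℝ) := by exact_mod_cast h3
  have h4' : ((⌊z⌋ % (b:ℤ) : ℤ) : ℝ) + 1 ≤ (b:ℝ) := by exact_mod_cast h4
  constructor
  · rw [le_div_iff₀ hbR]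
    nlinarith
  · rw [div_lt_iff₀ hbR]
    nlinarith

lemma stands_of_near (g K : ℕ) (hg : 2 ≤ g) (w : Fin K → Fin g) (y : ℝ) (i : ℕ) (n : ℤ)
    (h : |((g:ℝ)^i * y - (((finFunctionFinEquiv (fun t => w t.rev) : Fin (g ^ K)) : ℕ) + 1/2) / (g:ℝ)^K) - n| <
      1 / (2 * (g:ℝ)^K)) : Stands g K w y i := by
  obtain ⟨v, hv⟩ : ∃ v : Fin (g^K), v = finFunctionFinEquiv (fun t => w t.rev) := ⟨_, rfl⟩
  rw [← hv] at h
  have hg0 : (0:ℝ) < g := by exact_mod_cast (by omega : 0 < g)
  have hgK : (0:ℝ) < (g:ℝ)^K := by positivity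
  have hfl : ⌊y * (g:ℝ)^(i+K)⌋ = (g:ℤ)^K * n + ((v : ℕ) : ℤ) := by
    rw [Int.floor_eq_iff]
    rw [abs_lt] at h
    obtain ⟨h1, h2⟩ := h
    have e1 : y * (g:ℝ)^(i+K) = (g:ℝ)^K * ((g:ℝ)^i * y) := by rw [pow_add]; ring
    have e2 : (g:ℝ)^K * ((((v:ℕ):ℝ) + 1/2) / (g:ℝ)^K) = ((v:ℕ):ℝ) + 1/2 := by
      field_simp
    have e3 : (g:ℝ)^K * (1 / (2 * (g:ℝ)^K)) = 1/2 := by
      field_simp
    have h1' := mul_lt_mul_of_pos_left h1 hgK
    have h2' := mul_lt_mul_of_pos_left h2 hgK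
    have e4 : (g:ℝ)^K * (((g:ℝ)^i * y - (((v:ℕ):ℝ) + 1/2) / (g:ℝ)^K) - n) =
      y * (g:ℝ)^(i+K) - (((v:ℕ):ℝ) + 1/2) - (g:ℝ)^K * n := by
      rw [mul_sub, mul_sub, e2, e1]
    rw [e4] at h1' h2'
    rw [mul_neg, e3] at h1'
    rw [e3] at h2'
    push_cast
    constructor <;> linarith
  intro s
  unfold digit
  obtain ⟨j, hj⟩ : ∃ j : ℕ, j = ((Fin.rev s : Fin K) : ℕ) := ⟨_, rfl⟩
  have hjK : j + s + 1 = K := by
    rw [hj, Fin.val_rev]
    have := s.2
    omega
  have e5 : y * (g:ℝ)^(i + s + 1) = y * (g:ℝ)^(i+K) / ((g^j : ℕ) : ℝ) := by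
    have : i + K = (i + s + 1) + j := by omega
    rw [this, pow_add _ (i + s + 1) j]
    push_cast
    field_simp
  rw [e5, floor_div _ _ (by positivity), hfl]
  have e6 : (g:ℤ)^K * n + ((v : ℕ) : ℤ) = ((v:ℕ):ℤ) + ((g^j : ℕ):ℤ) * ((g:ℤ) * ((g:ℤ)^(s:ℕ) * n)) := by
    have : (g:ℤ)^K = (g:ℤ)^j * ((g:ℤ) * (g:ℤ)^(s:ℕ)) := by
      rw [← pow_succ', ← pow_add]
      congr 1
      omega
    rw [this]
    push_cast
    ring
  have hgj : ((g^j : ℕ):ℤ) ≠ 0 := by
    have : 0 < g^j := by positivity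
    exact_mod_cast this.ne'
  rw [e6, Int.add_mul_ediv_left _ _ hgj, Int.add_mul_emod_self_left]
  have e7 : (((v:ℕ):ℤ) / ((g^j:ℕ):ℤ)) % (g:ℤ) = (((v:ℕ) / g^j % g : ℕ) : ℤ) := by push_cast; rfl
  rw [e7]
  have e8 : finFunctionFinEquiv.symm v (Fin.rev s) = w s := by
    rw [hv, Equiv.symm_apply_apply, Fin.rev_rev]
  have e9 : ((finFunctionFinEquiv.symm v (Fin.rev s) : Fin g) : ℕ) = (v:ℕ) / g^j % g := by
    rw [hj]; rfl
  rw [← e9, e8]

lemma badP_of_not {g K : ℕ} (hg : 2 ≤ g) {y : ℝ} (h : ¬ AllWords g K y) :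
    BadP g (1 / (2 * (g:ℝ)^K)) y := by
  unfold AllWords at h
  push Not at h
  obtain ⟨w, hw⟩ := h
  obtain ⟨I, hI⟩ := hw.bddAbove
  refine ⟨(((finFunctionFinEquiv (fun t => w t.rev) : Fin (g ^ K)) : ℕ) + 1/2) / (g:ℝ)^K, I + 1, ?_⟩
  intro i hi n
  by_contra hcon
  push Not at hcon
  have h1 := stands_of_near g K hg w y i n hcon
  have h2 : i ≤ I := hI h1
  omega

theorem fold_eq {G : Type} [AddCommGroup G] [DecidableEq G] (n : ℕ) (A : Finset G) :
    fold n A = Pool.Agent.TH513.IS.sm A n := rfl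

open Classical in
theorem main : ∃ c C : ℝ, 0 < c ∧ 0 < C ∧
    (∀ g K : ℕ, 2 ≤ g → 1 ≤ K →
      (∀ (k n : ℕ) (L : ℝ) (A : Finset ℝ), 1 ≤ k → 2 ≤ n → A.Nonempty →
        ((fold n A).card : ℝ) ≤ L * A.card → Real.log (2 * L) ≤ (n : ℝ) ^ k → Free A →
        ((A.filter (fun y => ¬ AllWords g K y)).card : ℝ) ≤ C * (g : ℝ) ^ K * (2 * L) ^ (116000 * k) *
          (A.card : ℝ) ^ (1 - c / ((g : ℝ) ^ K * K * Real.log g * (1 + Real.log (2 * L) / Real.log n)))) ∧
      (∀ (k n : ℕ) (L : ℝ) (M : Finset ℤ), 1 ≤ k → 2 ≤ n → M.Nonempty →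
        ((fold n M).card : ℝ) ≤ L * M.card → Real.log (2 * L) ≤ (n : ℝ) ^ k → ∀ x α : ℝ, Irrational α →
        ((M.filter (fun m : ℤ => ¬ AllWords g K (x + m * α))).card : ℝ) ≤
          C * (g : ℝ) ^ K * (2 * L) ^ (116000 * k) *
          (M.card : ℝ) ^ (1 - c / ((g : ℝ) ^ K * K * Real.log g * (1 + Real.log (2 * L) / Real.log n)))) ∧
      (∀ (D n : ℕ) (M : Finset ℤ), 2 ≤ n → M.Nonempty →
        ((fold n M).card : ℝ) ≤ (n : ℝ) ^ D * M.card → ∀ x α : ℝ, Irrational α →
        ((M.filter (fun m : ℤ => ¬ AllWords g K (x + m * α))).card : ℝ) ≤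
          C * (g : ℝ) ^ K * (n : ℝ) ^ (116000 * (D + 1) ^ 2) *
          (M.card : ℝ) ^ (1 - c / ((g : ℝ) ^ K * K * Real.log g * (D + 2))))) := by
  obtain ⟨c, C, hc, hC, h⟩ := padic_iter
  refine ⟨c / 6, 2 * C, by positivity, by positivity, ?_⟩
  intro g K hg hK
  have hgR : (2:ℝ) ≤ g := by exact_mod_cast hg
  have hKR : (1:ℝ) ≤ K := by exact_mod_cast hK
  have hg0 : (0:ℝ) < g := by linarith
  have hgK : (1:ℝ) ≤ (g:ℝ)^K := one_le_pow₀ (by linarith)
  have hgK0 : (0:ℝ) < (g:ℝ)^K := by positivity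
  have hlg : 0 < Real.log g := Real.log_pos (by linarith)
  set ε : ℝ := 1 / (2 * (g:ℝ)^K) with hε
  have hε0 : 0 < ε := by positivity
  have hε2 : ε ≤ 1/2 := by
    rw [hε, div_le_div_iff₀ (by positivity) (by norm_num)]
    linarith
  have hloge : Real.log (g / ε) ≤ 3 * K * Real.log g := by
    have e1 : (g:ℝ) / ε = 2 * (g:ℝ)^(K+1) := by
      rw [hε]
      field_simp
      ring
    rw [e1, Real.log_mul (by norm_num) (by positivity), Real.log_pow]
    have h2 : Real.log 2 ≤ Real.log g := Real.log_le_log (by norm_num) hgR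
    push_cast
    nlinarith
  obtain ⟨hlog, _⟩ := Pool.Agent.Y940.PA.log_one hg hε0 hε2
  have hlog0 : 0 < Real.log (g/ε) := by linarith
  have hCe : C / ε = 2 * C * (g:ℝ)^K := by
    rw [hε]
    field_simp
  have hexp : ∀ X : ℝ, 0 < X → c / 6 / ((g : ℝ) ^ K * K * Real.log g * X) ≤
      c * ε / (Real.log (g / ε) * X) := by
    intro X hX
    have e1 : c / 6 / ((g : ℝ) ^ K * K * Real.log g * X) = c * ε / (3 * K * Real.log g * X) := by
      rw [hε]
      field_simp
      ring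
    rw [e1]
    apply div_le_div_of_nonneg_left (by positivity) (by positivity)
    exact mul_le_mul_of_nonneg_right hloge hX.le
  have part1 : ∀ (k n : ℕ) (L : ℝ) (A : Finset ℝ), 1 ≤ k → 2 ≤ n → A.Nonempty →
        ((fold n A).card : ℝ) ≤ L * A.card → Real.log (2 * L) ≤ (n : ℝ) ^ k → Free A →
        ((A.filter (fun y => ¬ AllWords g K y)).card : ℝ) ≤ 2 * C * (g : ℝ) ^ K * (2 * L) ^ (116000 * k) *
          (A.card : ℝ) ^ (1 - c / 6 / ((g : ℝ) ^ K * K * Real.log g *
            (1 + Real.log (2 * L) / Real.log n))) := by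
    intro k n L A hk hn hA hL hkn hF
    have hL1 : 1 ≤ L := by
      rw [fold_eq] at hL
      exact V1121.PF.one_le_of_card (by omega) hA hL
    have hnR : (2 : ℝ) ≤ n := by exact_mod_cast hn
    have hln0 : 0 < Real.log n := Real.log_pos (by linarith)
    have hX : 0 < 1 + Real.log (2 * L) / Real.log n := by
      have : 0 ≤ Real.log (2 * L) / Real.log n := div_nonneg (Real.log_nonneg (by linarith)) hln0.le
      linarith
    have hAr : (1:ℝ) ≤ A.card := by exact_mod_cast hA.card_pos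
    have h1 := h g hg ε hε0 hε2 k n L A (A.filter (fun y => ¬ AllWords g K y)) hk hn hA
      (by rw [← fold_eq]; exact hL) hkn (Finset.filter_subset _ _)
      (fun β hβ => badP_of_not hg (Finset.mem_filter.1 hβ).2)
      (by
        rintro b hb b' hb' hne ⟨q, hq1, hq2, j, m, hm⟩
        have hirr := hF b (Finset.mem_filter.1 hb).1 b' (Finset.mem_filter.1 hb').1 hne
        have h3 : Irrational (((g ^ j * q : ℕ) : ℝ) * (b - b')) :=
          hirr.natCast_mul (Nat.mul_pos (pow_pos (by omega) j) (by omega)).ne'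
        apply h3
        refine ⟨(m:ℚ), ?_⟩
        push_cast
        rw [← hm]
        ring)
    rw [hCe] at h1
    refine h1.trans ?_
    apply mul_le_mul_of_nonneg_left _ (by positivity)
    apply Real.rpow_le_rpow_of_exponent_le hAr
    have := hexp _ hX
    linarith
  have part2 : ∀ (k n : ℕ) (L : ℝ) (M : Finset ℤ), 1 ≤ k → 2 ≤ n → M.Nonempty →
        ((fold n M).card : ℝ) ≤ L * M.card → Real.log (2 * L) ≤ (n : ℝ) ^ k → ∀ x α : ℝ, Irrational α →
        ((M.filter (fun m : ℤ => ¬ AllWords g K (x + m * α))).card : ℝ) ≤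
          2 * C * (g : ℝ) ^ K * (2 * L) ^ (116000 * k) *
          (M.card : ℝ) ^ (1 - c / 6 / ((g : ℝ) ^ K * K * Real.log g *
            (1 + Real.log (2 * L) / Real.log n))) := by
    intro k n L M hk hn hM hL hkn x α hα
    have hα0 : α ≠ 0 := hα.ne_zero
    set f : ℤ → ℝ := fun m : ℤ => (m:ℝ) * α with hf
    have hinj : Function.Injective f := by
      intro a b hab
      have := mul_right_cancel₀ hα0 hab
      exact_mod_cast this
    obtain ⟨φ, hφ⟩ : ∃ φ : ℤ →+ ℝ, ∀ m, φ m = f m :=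
      ⟨{ toFun := f, map_zero' := by simp [hf], map_add' := by intro a b; simp only [hf]; push_cast; ring },
        fun _ => rfl⟩
    have hφf : (⇑φ : ℤ → ℝ) = f := funext hφ
    have hinj2 : Function.Injective (fun m : ℤ => x + f m) := by
      intro a b hab
      exact hinj (add_left_cancel hab)
    have hc1 : (M.image (fun m : ℤ => x + f m)).card = M.card := Finset.card_image_of_injective _ hinj2
    have hc2 : (fold n (M.image (fun m : ℤ => x + f m))).card = (fold n M).card := by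
      have e1 : fold n (M.image (fun m : ℤ => x + f m)) = (fold n M).image (fun m : ℤ => n * x + f m) := by
        ext z
        unfold fold
        simp only [Finset.mem_image, Fintype.mem_piFinset]
        constructor
        · rintro ⟨u, hu, rfl⟩
          choose v hv using hu
          refine ⟨∑ i, v i, ⟨v, fun i => (hv i).1, rfl⟩, ?_⟩
          rw [← hφ, map_sum]
          have : ∀ i, u i = x + φ (v i) := fun i => by rw [hφ]; exact (hv i).2.symm
          rw [Finset.sum_congr rfl (fun i _ => this i), Finset.sum_add_distrib]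
          simp
        · rintro ⟨_, ⟨v, hv, rfl⟩, rfl⟩
          refine ⟨fun i => x + f (v i), fun i => ⟨v i, hv i, rfl⟩, ?_⟩
          rw [← hφ, map_sum, Finset.sum_add_distrib]
          simp [hφ]
      rw [e1]
      apply Finset.card_image_of_injective
      intro a b hab
      exact hinj (add_left_cancel hab)
    have hc3 : ((M.image (fun m : ℤ => x + f m)).filter (fun y => ¬ AllWords g K y)).card =
        (M.filter (fun m : ℤ => ¬ AllWords g K (x + m * α))).card := by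
      rw [Finset.filter_image]
      exact Finset.card_image_of_injective _ hinj2
    have h1 := part1 k n L (M.image (fun m : ℤ => x + f m)) hk hn (hM.image _)
      (by rw [hc1, hc2]; exact hL) hkn
      (by
        intro y hy z hz hne
        obtain ⟨m, hm, rfl⟩ := Finset.mem_image.1 hy
        obtain ⟨m', hm', rfl⟩ := Finset.mem_image.1 hz
        have hmm : (m - m' : ℤ) ≠ 0 := sub_ne_zero.2 (fun h => hne (by rw [h]))
        have e2 : (x + f m) - (x + f m') = ((m - m' : ℤ) : ℝ) * α := by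
          simp only [hf]; push_cast; ring
        rw [e2]
        exact hα.intCast_mul hmm)
    rw [hc3, hc1] at h1
    exact h1
  refine ⟨part1, part2, ?_⟩
  intro D n M hn hM hL x α hα
  obtain ⟨q1, q2, q3, q4⟩ := power_params D n hn
  have hnR : (2 : ℝ) ≤ n := by exact_mod_cast hn
  have hln0 : 0 < Real.log n := Real.log_pos (by linarith)
  have hMr : (1:ℝ) ≤ M.card := by exact_mod_cast hM.card_pos
  refine (part2 (D + 1) n ((n : ℝ) ^ D) M (by omega) hn hM hL q2 x α hα).trans ?_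
  have h1 : (2 * (n : ℝ) ^ D) ^ (116000 * (D + 1)) ≤ (n : ℝ) ^ (116000 * (D + 1) ^ 2) := by
    calc (2 * (n : ℝ) ^ D) ^ (116000 * (D + 1)) ≤ ((n : ℝ) ^ (D + 1)) ^ (116000 * (D + 1)) := by
          apply pow_le_pow_left₀ (by positivity)
          rw [pow_succ]
          have : (0 : ℝ) ≤ (n : ℝ) ^ D := by positivity
          nlinarith
      _ = _ := by
          rw [← pow_mul]
          congr 1
          ring
  have h2 : (M.card : ℝ) ^ (1 - c / 6 / ((g : ℝ) ^ K * K * Real.log g *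
      (1 + Real.log (2 * (n : ℝ) ^ D) / Real.log n))) ≤
      (M.card : ℝ) ^ (1 - c / 6 / ((g : ℝ) ^ K * K * Real.log g * ((D : ℝ) + 2))) := by
    apply Real.rpow_le_rpow_of_exponent_le hMr
    have hx0 : 0 < 1 + Real.log (2 * (n : ℝ) ^ D) / Real.log n := by
      have : 0 ≤ Real.log (2 * (n : ℝ) ^ D) / Real.log n := div_nonneg q3 hln0.le
      linarith
    have h3 : c / 6 / ((g : ℝ) ^ K * K * Real.log g * ((D : ℝ) + 2)) ≤
        c / 6 / ((g : ℝ) ^ K * K * Real.log g * (1 + Real.log (2 * (n : ℝ) ^ D) / Real.log n)) := by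
      apply div_le_div_of_nonneg_left (by positivity) (by positivity)
      exact mul_le_mul_of_nonneg_left q4 (by positivity)
    linarith
  have h3 : (0:ℝ) ≤ 2 * C * (g:ℝ)^K := by positivity
  exact mul_le_mul (mul_le_mul_of_nonneg_left h1 h3) h2 (by positivity) (by positivity)

lemma one_digit {y : ℝ} (h : AllWords 10 1 y) (d : Fin 10) :
    {j : ℕ | 1 ≤ j ∧ digit 10 y j = ((d : ℕ) : ℤ)}.Infinite := by
  have h1 := h (fun _ => d)
  have h2 : {i : ℕ | Stands 10 1 (fun _ => d) y i}.image (fun i => i + 1) ⊆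
      {j : ℕ | 1 ≤ j ∧ digit 10 y j = ((d : ℕ) : ℤ)} := by
    rintro _ ⟨i, hi, rfl⟩
    refine ⟨by simp, ?_⟩
    have := hi 0
    simpa using this
  exact (h1.image (by intro a _ b _ hab; simpa using hab)).mono h2

open Classical in
/-- (a) There are absolute constants `c, C > 0` such that for all bases `g ≥ 2` and all lengths `K ≥ 1`:
(1) let `A` be a nonempty finite set of real numbers no two of which differ by a rational number,
`|n A| ≤ L |A|`, `log 2L ≤ n ^ k`: then every word of `K` digits stands infinitely often in the expansion in base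
`g` of all elements of `A` with at most
`C g ^ K (2L) ^ (116000 k) |A| ^ (1 - c / (g ^ K K log g (1 + log 2L / log n)))` exceptions;
(2) the same for `x + m α`, `m ∈ M`, where `M` is a finite set of integers, `α` is irrational and `x` is any real
number; (3) the case of polynomial growth, `|n M| ≤ n ^ D |M|`. (b) The case of `√2` and the ten decimal
digits, with constants `c`, `C`. -/
theorem result : (∃ c C : ℝ, 0 < c ∧ 0 < C ∧
    (∀ g K : ℕ, 2 ≤ g → 1 ≤ K →
      (∀ (k n : ℕ) (L : ℝ) (A : Finset ℝ), 1 ≤ k → 2 ≤ n → A.Nonempty →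
        ((fold n A).card : ℝ) ≤ L * A.card → Real.log (2 * L) ≤ (n : ℝ) ^ k → Free A →
        ((A.filter (fun y => ¬ AllWords g K y)).card : ℝ) ≤ C * (g : ℝ) ^ K * (2 * L) ^ (116000 * k) *
          (A.card : ℝ) ^ (1 - c / ((g : ℝ) ^ K * K * Real.log g * (1 + Real.log (2 * L) / Real.log n)))) ∧
      (∀ (k n : ℕ) (L : ℝ) (M : Finset ℤ), 1 ≤ k → 2 ≤ n → M.Nonempty →
        ((fold n M).card : ℝ) ≤ L * M.card → Real.log (2 * L) ≤ (n : ℝ) ^ k → ∀ x α : ℝ, Irrational α →
        ((M.filter (fun m : ℤ => ¬ AllWords g K (x + m * α))).card : ℝ) ≤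
          C * (g : ℝ) ^ K * (2 * L) ^ (116000 * k) *
          (M.card : ℝ) ^ (1 - c / ((g : ℝ) ^ K * K * Real.log g * (1 + Real.log (2 * L) / Real.log n)))) ∧
      (∀ (D n : ℕ) (M : Finset ℤ), 2 ≤ n → M.Nonempty →
        ((fold n M).card : ℝ) ≤ (n : ℝ) ^ D * M.card → ∀ x α : ℝ, Irrational α →
        ((M.filter (fun m : ℤ => ¬ AllWords g K (x + m * α))).card : ℝ) ≤
          C * (g : ℝ) ^ K * (n : ℝ) ^ (116000 * (D + 1) ^ 2) *
          (M.card : ℝ) ^ (1 - c / ((g : ℝ) ^ K * K * Real.log g * (D + 2)))))) ∧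
    (∃ c C : ℝ, 0 < c ∧ 0 < C ∧ ∀ (D n : ℕ) (M : Finset ℤ), 2 ≤ n → M.Nonempty →
      ((fold n M).card : ℝ) ≤ (n : ℝ) ^ D * M.card → ∀ x : ℝ,
      ((M.filter (fun m : ℤ => ¬ ∀ d : Fin 10, {j : ℕ | 1 ≤ j ∧
          digit 10 (x + m * Real.sqrt 2) j = ((d : ℕ) : ℤ)}.Infinite)).card : ℝ) ≤
        C * (n : ℝ) ^ (116000 * (D + 1) ^ 2) * (M.card : ℝ) ^ (1 - c / (D + 2))) := by
  refine ⟨main, ?_⟩
  obtain ⟨c, C, hc, hC, h⟩ := main
  have hl10 : 0 < Real.log 10 := Real.log_pos (by norm_num)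
  refine ⟨c / (10 * Real.log 10), C * 10, by positivity, by positivity, ?_⟩
  intro D n M hn hM hL x
  have h1 := (h 10 1 (by norm_num) le_rfl).2.2 D n M hn hM hL x (Real.sqrt 2) irrational_sqrt_two
  have h2 : ((M.filter (fun m : ℤ => ¬ ∀ d : Fin 10, {j : ℕ | 1 ≤ j ∧
          digit 10 (x + m * Real.sqrt 2) j = ((d : ℕ) : ℤ)}.Infinite)).card : ℝ) ≤
      ((M.filter (fun m : ℤ => ¬ AllWords 10 1 (x + m * Real.sqrt 2))).card : ℝ) := by
    have : (M.filter (fun m : ℤ => ¬ ∀ d : Fin 10, {j : ℕ | 1 ≤ j ∧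
          digit 10 (x + m * Real.sqrt 2) j = ((d : ℕ) : ℤ)}.Infinite)).card ≤
        (M.filter (fun m : ℤ => ¬ AllWords 10 1 (x + m * Real.sqrt 2))).card := by
      apply Finset.card_le_card
      intro m hm
      rw [Finset.mem_filter] at hm ⊢
      exact ⟨hm.1, fun hall => hm.2 (fun d => one_digit hall d)⟩
    exact_mod_cast this
  refine h2.trans (h1.trans (le_of_eq ?_))
  have e1 : c / (((10:ℕ):ℝ) ^ 1 * ((1:ℕ):ℝ) * Real.log ((10:ℕ):ℝ) * ((D:ℝ) + 2)) =
      c / (10 * Real.log 10) / ((D:ℝ) + 2) := by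
    push_cast
    rw [div_div]
    ring_nf
  rw [e1]
  push_cast
  ring

end Pool.Agent.Results.MP_175f55_nt.PolynomialGrowth
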